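import Pool.Agent.helper50.PHN.Spec

set_option autoImplicit false

namespace Pool.Agent.PHN

open Finset

theorem STC_ind (n : ℕ) (a x : ℤ) (s : ℕ) (h : n ∣ s) : ind n a (x + s) = ind n a x := by
  have h1 : (n : ℤ) ∣ (s : ℤ) := Int.natCast_dvd_natCast.2 h
  have h2 : (n : ℤ) ∣ x + s + a ↔ (n : ℤ) ∣ x + a := by
    have h3 : x + (s : ℤ) + a = (x + a) + s := by ring
    rw [h3]
    exact (Int.dvd_add_left h1)
  unfold ind
  by_cases h3 : (n : ℤ) ∣ x + a
  · rw [if_pos h3, if_pos (h2.2 h3)]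
  · rw [if_neg h3, if_neg (fun h => h3 (h2.1 h))]

theorem STC_ind_nonneg (n : ℕ) (a x : ℤ) : 0 ≤ ind n a x := by
  unfold ind
  split_ifs <;> norm_num

theorem STC_mono (T : ℕ) (f g : ℤ → ℝ) (h : ∀ x, f x ≤ g x) : mu T f ≤ mu T g := by
  unfold mu
  exact div_le_div_of_nonneg_right (Finset.sum_le_sum fun x _ => h x) (Nat.cast_nonneg T)

theorem STC_smul (T : ℕ) (f : ℤ → ℝ) (c : ℝ) : mu T (fun x => c * f x) = c * mu T f := by
  unfold mu
  rw [← Finset.mul_sum, mul_div_assoc]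

theorem STC_gg (δ : ℕ → ℝ) (q0 q n' j : ℕ) (hq : q.Prime) (hq0 : q0 ≤ q) (hn : n' ≠ 0) (hqn : ¬ q ∣ n') (hj : j ≠ 0) :
    gg δ q0 (q ^ j * n') = (1 + 2 * δ q) * gg δ q0 n' := by
  unfold gg
  rw [Nat.primeFactors_mul (pow_ne_zero _ hq.ne_zero) hn, Nat.primeFactors_prime_pow hj hq,
    Finset.filter_union, Finset.filter_singleton, if_pos hq0, Finset.prod_union, Finset.prod_singleton]
  rw [Finset.disjoint_singleton_left, Finset.mem_filter]
  rintro ⟨h, -⟩
  exact hqn (Nat.dvd_of_mem_primeFactors h)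

/-- STC -/
theorem STC (hSTA : STA_stmt) (hUUD : UUD_stmt) (hMAV : MAV_stmt) (hCLA : CLA_stmt) : STC_stmt := by
  intro D q w hq hq0 hI n a hn hp
  obtain ⟨S1, -, -, S4⟩ := hSTA D q w hq hq0 hI
  obtain ⟨hT1, -⟩ := hUUD.2 D
  obtain ⟨hQu, -, hdvd⟩ := hUUD.1 D.T q hT1 hq
  have hn0 : n ≠ 0 := by
    rintro rfl
    rw [zero_dvd_iff] at hn
    omega
  by_cases hqn : q ∣ n
  · obtain ⟨j, n', hqn', hnj⟩ := Nat.exists_eq_pow_mul_and_not_dvd hn0 q hq.ne_one
    have hj : j ≠ 0 := by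
      rintro rfl
      rw [pow_zero, one_mul] at hnj
      rw [hnj] at hqn
      exact hqn' hqn
    have hn'0 : n' ≠ 0 := by
      rintro rfl
      exact hqn' (dvd_zero q)
    have hn'T : n' ∣ D.T := (Dvd.intro_left _ hnj.symm).trans hn
    have hn'n : n' ∣ n := Dvd.intro_left _ hnj.symm
    have hp' : ∀ p ∈ n'.primeFactors, p < q := by
      intro p hpn
      have h1 := hp p (Nat.primeFactors_mono hn'n hn0 hpn)
      have h2 : p ≠ q := by
        rintro rfl
        exact hqn' (Nat.dvd_of_mem_primeFactors hpn)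
      omega
    have h1 : mu D.T (fun x => D.nw q w x * ind n a x) ≤ (1 + 2 * D.δ q) * mu D.T (fun x => w x * ind n a x) := by
      rw [← STC_smul]
      refine STC_mono _ _ _ fun x => ?_
      have := mul_le_mul_of_nonneg_right (S1 x).2 (STC_ind_nonneg n a x)
      linarith
    have h2 : mu D.T (fun x => w x * ind n a x) =
        mu D.T (fun x => w x * AV (q ^ D.T.factorization q) (uu D.T q) (ind n a) x) :=
      (hMAV D.T (q ^ D.T.factorization q) (uu D.T q) w (ind n a) hT1 hQu hI.per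
        (fun x => STC_ind n a x D.T hn)).2.2 (hI.inv q hq le_rfl)
    have h3 : mu D.T (fun x => w x * AV (q ^ D.T.factorization q) (uu D.T q) (ind n a) x) =
        (1 / (q : ℝ) ^ j) * mu D.T (fun x => w x * ind n' a x) := by
      rw [← STC_smul]
      congr 1
      funext x
      have h4 := hCLA D.T q n' j a x hT1 hq hqn' (by rw [mul_comm, ← hnj]; exact hn)
      rw [mul_comm n' (q ^ j), ← hnj] at h4
      rw [h4]
      ring
    have h5 := hI.cls n' a hn'T hp'
    have hq1 : (0 : ℝ) < (q : ℝ) ^ j := pow_pos (by exact_mod_cast hq.pos) j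
    have hδ := D.dpos q hq0
    have hg := STC_gg D.δ D.q0 q n' j hq hq0 hn'0 hqn' hj
    rw [← hnj] at hg
    have hnc : (n : ℝ) = (q : ℝ) ^ j * n' := by
      rw [hnj]
      push_cast
      ring
    have hn'c : (0 : ℝ) < n' := by exact_mod_cast Nat.pos_of_ne_zero hn'0
    calc mu D.T (fun x => D.nw q w x * ind n a x)
        ≤ (1 + 2 * D.δ q) * ((1 / (q : ℝ) ^ j) * mu D.T (fun x => w x * ind n' a x)) := by
          rw [← h3, ← h2]
          exact h1
      _ ≤ (1 + 2 * D.δ q) * ((1 / (q : ℝ) ^ j) * (D.W * gg D.δ D.q0 n' / n')) := by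
          gcongr
      _ = D.W * gg D.δ D.q0 n / n := by
          rw [hg, hnc]
          field_simp
  · have hp' : ∀ p ∈ n.primeFactors, p < q := by
      intro p hpn
      have h1 := hp p hpn
      have h2 : p ≠ q := by
        rintro rfl
        exact hqn (Nat.dvd_of_mem_primeFactors hpn)
      omega
    rw [S4 (ind n a) (fun x => STC_ind n a x D.T hn) (fun x => STC_ind n a x _ (hdvd n hn hqn))]
    exact hI.cls n a hn hp'

end Pool.Agent.PHN
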